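import Pool.Agent.N95.HK.Ex

/-!
MP_70ba79_ag, Q1: the Lang–Vojta conjecture for the maps from affine curves to the affine varieties
with finite correspondences to generic pairs.

Let `K` be an algebraically closed field of characteristic `0`, and let `k` be a field contained in
`K`, with algebraic closure `k'` in `K`. A *generic affine pair* `X` (`GenericPair k K`, in
`Pool/Agent/N111/GJ/Def.lean`) defines the affine variety `U`, the complement of the hypersurfaces
`F b = 0`, `b ∉ C`, in the intersection of a closed subset `V` of a projective space, defined over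
`k'`, of dimension at most `m`, and of the hypersurfaces `F c = 0`, `c ∈ C`, where the ratios of the
coefficients of the forms `F a`, of degrees `d a`, to one of them are, for all `a` together,
algebraically independent over `k`. Let `X.size` be the sum of all the numbers `d a` and of the number
of elements of `C`.

Let `M` be an affine variety over `K`, with function field `L` and coordinates `u`. A *finite
correspondence* `M ← W → U` (`IsCorr X u x`, in `Pool/Agent/N111/GJ/Stmt.lean`) is given by a finite
extension `L'` of `L`, the function field of `W`, and a point `x` of `U` with coordinates in `L'` such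
that `W → M` is finite, where `W` is the closure of the graph in the product of `M` and `U`: the
values at `x` of the functions `x ^ I / F b` on `U` are integral over the ring of functions on `M`.
`FibresLE X u x r`: the fibres of `W → M` have at most `r` points. `QuasiFinite X u x`: the fibres of
`W → U` are finite. `GenericallyFiniteOn X u x z`, for the closed subvariety of `M` with generic point
`z`: the functions on the subvariety are algebraic over the field generated by the values of `W` at a
point over its generic point. For instance, `M` can be a quotient of an affine variety `W`,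
quasi-finite over `U`, by a finite group of order at most `r`, such as `(P^n ∖ ⋃ g D) / G`, where `D`
is a generic hypersurface and `G` a finite group of automorphisms of `P^n`, or any normal variety
which is the image of such a `W` under a finite map of degree at most `r`.

Maps from curves (`MapFrom K u S f`, in `Pool/Agent/N95/HK/Lv.lean`): `B` is a function field of one
variable over `K`, of genus `g`, and `S` is a finite set of its places, so that they give the smooth
affine curve `𝒞`, with `χ(𝒞) = 2 g - 2 + s`, where `canDeg K B = 2 g - 2` and `s` is the number of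
the elements of `S`. `E` is a finite extension of `B`, and gives a finite covering `𝒞'` of `𝒞`, by a
normal affine curve; its degree is `[E : B]`. The elements `f` of `E` are the coordinates of a
morphism from `𝒞'` to `M`. `pht K (1, f)` is the degree of the pullback of `O(1)`, for the closure of
`M` in the projective space; this is the product of the degree of the closure of the image and of the
degree of the map to it. The case `[E : B] ≤ 1` are the maps from `𝒞` to `M`; the general case are
the multi-valued maps from `𝒞` to `M`.

`LinearBound K u e`: the degrees of the multi-valued maps, with at most `e` values, from affine curves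
`𝒞` to `M` are at most `A max(χ(𝒞), 0)`, for some number `A`. `LangVojta K u`: the conclusion of Q1.
-/

set_option autoImplicit false
set_option linter.overlappingInstances false

namespace Pool.Agent.Results.MP_70ba79_ag.FiniteCorrespondences

open FF Pool.Agent.W603.LV Pool.Agent.W603.PV
open Pool.Agent.N111.GJ (GenericPair IsSub)
open Pool.Agent.N111.GJ.FC
open Pool.Agent.N95.HK (MapFrom)

/-- The linear bound for the degrees of the multi-valued maps, with at most `e` values, from affine
curves to the affine variety with coordinates `u`, with image not in `G = 0`. -/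
def LinearOff (K : Type) [Field K] [IsAlgClosed K] [CharZero K] {L : Type} [Field L] [Algebra K L]
    {N : ℕ} (u : Fin N → L) (e : ℕ) (G : MvPolynomial (Fin N) K) : Prop :=
  ∃ A : ℕ, ∀ (B E : Type) [Field B] [Field E] [Algebra K B] [Algebra K E] [Algebra B E]
    [IsScalarTower K B E] [FiniteDimensional B E] [IsFF K B] [IsFF K E], Module.finrank B E ≤ e →
    ∀ (S : Set (Place K B)) (f : Fin N → E), S.Finite → MapFrom K u S f →
      MvPolynomial.aeval f G ≠ 0 →
      pht K (Fin.cons 1 f : Fin (N + 1) → E) ≤ A * max (canDeg K B + S.ncard) 0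

/-- The linear bound for the degrees of the multi-valued maps, with at most `e` values, from affine
curves to the affine variety with coordinates `u`. -/
def LinearBound (K : Type) [Field K] [IsAlgClosed K] [CharZero K] {L : Type} [Field L]
    [Algebra K L] {N : ℕ} (u : Fin N → L) (e : ℕ) : Prop :=
  LinearOff K u e 1

/-- The conclusion of Q1 for the affine variety with coordinates `u`: there are a proper closed
subset `G = 0` and a function `β` such that the degrees of the nonconstant maps from affine curves
with image not in the closed subset are at most the value of `β` at the Euler characteristic of the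
curve. -/
def LangVojta (K : Type) [Field K] [IsAlgClosed K] [CharZero K] {L : Type} [Field L] [Algebra K L]
    {N : ℕ} (u : Fin N → L) : Prop :=
  ∃ (G : MvPolynomial (Fin N) K) (β : ℤ → ℝ), MvPolynomial.aeval u G ≠ 0 ∧
    ∀ (B : Type) [Field B] [Algebra K B] [IsFF K B] (S : Set (Place K B)) (f : Fin N → B),
      S.Finite → MapFrom K u S f → (∃ j, Transcendental K (f j)) → MvPolynomial.aeval f G ≠ 0 →
      (pht K (Fin.cons 1 f : Fin (N + 1) → B) : ℝ) ≤ β (canDeg K B + S.ncard)

theorem result {k K : Type} [Field k] [Field K] [IsAlgClosed K] [CharZero K] [Algebra k K] :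
    -- `M`: any affine variety over `K`, with function field `L` and coordinates `u`
    (∀ (L : Type) [Field L] [Algebra K L] (N : ℕ) (u : Fin N → L),
      IntermediateField.adjoin K (Set.range u) = ⊤ →
      -- `M ← W → U`: any finite correspondence, whose fibres over `M` have at most `r` points
      (∀ (X : GenericPair k K) (L' : Type) [Field L'] [Algebra K L'] [Algebra L L']
        [IsScalarTower K L L'] [FiniteDimensional L L'] (x : Fin (X.n + 1) → L') (r : ℕ),
        IsCorr X u x → FibresLE X u x r →
        -- (1) the closed subvarieties of positive dimension on which it is generically finite, such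
        -- as `M` itself, are of log general type, and satisfy the conclusion of Q1, with a linear
        -- function, and also for the multi-valued maps
        (∀ (E₀ : Type) [Field E₀] [Algebra K E₀] (w : ℕ) (z : Fin N → E₀), 0 < w →
          IsSub K u z w → GenericallyFiniteOn X u x z → 2 * X.m + 2 * r ≤ X.size + 1 →
          LogGeneral K z w ∧ LangVojta K z ∧
          ∀ e : ℕ, 2 * X.m + 2 * (r * e) ≤ X.size + 1 →
            ∃ G : MvPolynomial (Fin N) K, MvPolynomial.aeval z G ≠ 0 ∧ LinearOff K z e G) ∧
        -- (2) if it is quasi-finite over `U`, then all closed subvarieties of `M` of positive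
        -- dimension are of log general type, and the exceptional subset is empty
        (QuasiFinite X u x → 2 * X.m + 2 * r ≤ X.size + 1 → AllLogGeneral K u ∧
          ∀ e : ℕ, 2 * X.m + 2 * (r * e) ≤ X.size + 1 → LinearBound K u e)) ∧
      -- (3) a linear bound for all maps to `M`, except those to the closed subvarieties of positive
      -- dimension on which no correspondence with a generic pair in the range is generically finite
      ∀ e : ℕ, ∃ A : ℕ, ∀ (B E : Type) [Field B] [Field E] [Algebra K B] [Algebra K E]
        [Algebra B E] [IsScalarTower K B E] [FiniteDimensional B E] [IsFF K B] [IsFF K E],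
        Module.finrank B E ≤ e → ∀ (S : Set (Place K B)) (f : Fin N → E), S.Finite →
        MapFrom K u S f →
        pht K (Fin.cons 1 f : Fin (N + 1) → E) ≤ A * max (canDeg K B + S.ncard) 0 ∨
        ∃ (E₀ : Type) (_ : Field E₀) (_ : Algebra K E₀) (w : ℕ) (z : Fin N → E₀), 0 < w ∧
          IsSub K u z w ∧
          (∀ P : MvPolynomial (Fin N) K, MvPolynomial.aeval z P = 0 → MvPolynomial.aeval f P = 0) ∧
          ∀ (X : GenericPair k K) (L' : Type) [Field L'] [Algebra K L'] [Algebra L L']
            [IsScalarTower K L L'] [FiniteDimensional L L'] (x : Fin (X.n + 1) → L') (r : ℕ),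
            IsCorr X u x → FibresLE X u x r → 2 * X.m + 2 * (r * e) ≤ X.size + 1 →
            ¬ GenericallyFiniteOn X u x z) ∧
    -- (4) the bound in (2) is exact, for each generic pair with lines: it is equivalent to the
    -- conclusion of Q1, and to its hypothesis, for all the varieties in (2)
    ∀ X : GenericPair k K, WithLines X → ∀ r : ℕ, 0 < r →
      ((∀ (L : Type) [Field L] [Algebra K L] (N : ℕ) (u : Fin N → L),
        IntermediateField.adjoin K (Set.range u) = ⊤ → Dominated X r u → AllLogGeneral K u) ↔
        2 * X.n + 2 * r ≤ X.size + 1) ∧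
      ((∀ (L : Type) [Field L] [Algebra K L] (N : ℕ) (u : Fin N → L),
        IntermediateField.adjoin K (Set.range u) = ⊤ → Dominated X r u → LangVojta K u) ↔
        2 * X.n + 2 * r ≤ X.size + 1) ∧
      ((∀ (L : Type) [Field L] [Algebra K L] (N : ℕ) (u : Fin N → L),
        IntermediateField.adjoin K (Set.range u) = ⊤ → Dominated X r u → LinearBound K u 1) ↔
        2 * X.n + 2 * r ≤ X.size + 1) := by
  -- the conclusion of Q1 from linear bounds
  have hLV : ∀ {L : Type} [Field L] [Algebra K L] {N : ℕ} {u : Fin N → L}
      {G : MvPolynomial (Fin N) K}, MvPolynomial.aeval u G ≠ 0 → LinearOff K u 1 G →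
      LangVojta K u := by
    intro L _ _ N u G hG ⟨A, hA⟩
    refine ⟨G, fun χ => A * max (χ : ℝ) 0, hG, fun B _ _ _ S f hS hf _ hfG => ?_⟩
    have h1 := hA B B (by rw [Module.finrank_self]) S f hS hf hfG
    have h2 : ((pht K (Fin.cons 1 f : Fin (N + 1) → B) : ℤ) : ℝ) ≤
        ((A * max (canDeg K B + S.ncard) 0 : ℤ) : ℝ) := by exact_mod_cast h1
    refine h2.trans (le_of_eq ?_)
    push_cast
    rfl
  have hqf : ∀ {L : Type} [Field L] [Algebra K L] {N : ℕ} {u : Fin N → L}
      (W : Pool.Agent.N111.GJ.Corr k K u) {r e : ℕ}, W.FibresLE r → W.QuasiFinite →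
      2 * W.X.m + 2 * (r * e) ≤ W.X.size + 1 → LinearBound K u e := by
    intro L _ _ N u W r e hr hW hd
    obtain ⟨A, hA⟩ := Pool.Agent.N95.HK.off_bound (k := k) (K := K) (u := u) e
    refine ⟨A, fun B E _ _ _ _ _ _ _ _ _ he S f hS hf _ => ?_⟩
    rcases hA B E he S f hS hf with h | ⟨E₀, _, _, w, z, hw, hz, -, h⟩
    · exact h
    · exact absurd (Pool.Agent.N111.GJ.gf_of_qf hW hz) (h W r hr hd)
  refine ⟨fun L _ _ N u hgen => ⟨fun X L' _ _ _ _ _ x r hc hr => ?_, fun e => ?_⟩, ?_⟩
  · let W : Pool.Agent.N111.GJ.Corr k K u :=
      { X := X, L' := L', x := x, pt := hc.pt, integral := hc.integral }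
    have hr' : W.FibresLE r := hr
    have hgf : ∀ (E₀ : Type) [Field E₀] [Algebra K E₀] (w : ℕ) (z : Fin N → E₀),
        IsSub K u z w → W.GenericallyFiniteOn z → ∀ e : ℕ,
        2 * X.m + 2 * (r * e) ≤ X.size + 1 →
          ∃ G : MvPolynomial (Fin N) K, MvPolynomial.aeval z G ≠ 0 ∧ LinearOff K z e G := by
      intro E₀ _ _ w z hz hW e hd
      obtain ⟨G, A, hG, hA⟩ := Pool.Agent.N95.HK.gf_bound (W := W) hr' hW hd
      exact ⟨G, hG, A, hA⟩
    refine ⟨fun E₀ _ _ w z hw hz hW hd => ⟨?_, ?_, hgf E₀ w z hz hW⟩, fun hq hd => ⟨?_, ?_⟩⟩
    · exact Pool.Agent.N111.GJ.log_general (W := W) hr' hz hw hW (by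
        have : 2 * W.X.m + 2 * r ≤ W.X.size + 1 := hd
        omega)
    · obtain ⟨G, hG, hA⟩ := hgf E₀ w z hz hW 1 (by rw [mul_one]; exact hd)
      exact hLV hG hA
    · exact fun E _ _ w z hw hz => Pool.Agent.N111.GJ.log_general hr' hz hw
        (Pool.Agent.N111.GJ.gf_of_qf (W := W) hq hz) (by
          have : 2 * W.X.m + 2 * r ≤ W.X.size + 1 := hd
          omega)
    · exact fun e he => hqf W hr' hq he
  · obtain ⟨A, hA⟩ := Pool.Agent.N95.HK.off_bound (k := k) (K := K) (u := u) e
    refine ⟨A, fun B E _ _ _ _ _ _ _ _ _ he S f hS hf => ?_⟩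
    refine (hA B E he S f hS hf).imp id ?_
    rintro ⟨E₀, i1, i2, w, z, hw, hz, hzf, h⟩
    exact ⟨E₀, i1, i2, w, z, hw, hz, hzf, fun X L' _ _ _ _ _ x r hc hr hd =>
      h { X := X, L' := L', x := x, pt := hc.pt, integral := hc.integral } r hr hd⟩
  rintro X ⟨hV, hm, hn, hd, hC⟩ r hr
  have hup : 2 * X.n + 2 * r ≤ X.size + 1 → ∀ (L : Type) [Field L] [Algebra K L] (N : ℕ)
      (u : Fin N → L), IntermediateField.adjoin K (Set.range u) = ⊤ → Dominated X r u →
      LinearBound K u 1 := by
    rintro h L _ _ N u - ⟨L', i1, i2, i3, i4, i5, x, hc, hWr, hWq⟩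
    refine hqf (r := r) { X := X, L' := L', x := x, pt := hc.pt, integral := hc.integral }
      hWr hWq ?_
    change 2 * X.m + 2 * (r * 1) ≤ X.size + 1
    omega
  have hlow : ¬ 2 * X.n + 2 * r ≤ X.size + 1 → ∃ (L : Type) (_ : Field L) (_ : Algebra K L)
      (u : Fin 2 → L), IntermediateField.adjoin K (Set.range u) = ⊤ ∧ Dominated X r u ∧
      ¬ LangVojta K u := by
    intro hcon
    obtain ⟨L, i1, i2, σ, hσ, htop, W, hWX, hWr, hWq⟩ := Pool.Agent.N95.HK.gm_corr X hV hn hd hC hr
      (by omega)
    subst hWX
    refine ⟨L, i1, i2, _, Pool.Agent.N111.GJ.cv_gen htop _, ⟨W.L', W.field, W.algK, W.algL,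
      W.tower, W.fd, W.x, ⟨W.pt, W.integral⟩, hWr, hWq⟩, ?_⟩
    rintro ⟨G, β, hG, hβ⟩
    obtain ⟨hFF, S, hS, hn⟩ := Pool.Agent.N95.HK.gm_maps hσ htop
    obtain ⟨n, hn'⟩ := exists_nat_gt (β (canDeg K L + S.ncard))
    obtain ⟨f, hf, htr, hfG, hpht⟩ := hn G hG n
    have h1 := hβ L S f hS hf htr hfG
    have h2 : (n : ℝ) ≤ (pht K (Fin.cons 1 f : Fin 3 → L) : ℝ) := by exact_mod_cast hpht
    linarith
  refine ⟨?_, ⟨fun h => ?_, fun h L _ _ N u hgen hdom => ?_⟩, ⟨fun h => ?_, hup⟩⟩
  · rw [← Pool.Agent.N111.GJ.exact_lgt X hV hm hn hd hC hr]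
    constructor
    · rintro h L _ _ N u hgen W rfl hWr hWq
      exact h L N u hgen ⟨W.L', W.field, W.algK, W.algL, W.tower, W.fd, W.x,
        ⟨W.pt, W.integral⟩, hWr, hWq⟩
    · rintro h L _ _ N u hgen ⟨L', i1, i2, i3, i4, i5, x, hc, hWr, hWq⟩
      exact h L N u hgen { X := X, L' := L', x := x, pt := hc.pt, integral := hc.integral } rfl
        hWr hWq
  · by_contra hcon
    obtain ⟨L, i1, i2, u, hgen, hdom, hno⟩ := hlow hcon
    exact hno (h L 2 u hgen hdom)
  · exact hLV (G := 1) (by rw [map_one]; exact one_ne_zero) (hup h L N u hgen hdom)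
  · by_contra hcon
    obtain ⟨L, i1, i2, u, hgen, hdom, hno⟩ := hlow hcon
    exact hno (hLV (G := 1) (by rw [map_one]; exact one_ne_zero) (h L 2 u hgen hdom))

end Pool.Agent.Results.MP_70ba79_ag.FiniteCorrespondences
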